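import Pool.Agent.Y393.RS.Pr

/-!
# The level of the largest degrees
-/

set_option autoImplicit false

namespace Pool.Agent.Y393.RS

open Finset

theorem tendsto_npow {a : ℝ} (ha : 0 < a) :
    Filter.Tendsto (fun n : ℕ => (n : ℝ) ^ (-a)) Filter.atTop (nhds 0) :=
  (tendsto_rpow_neg_atTop ha).comp tendsto_natCast_atTop_atTop

section

variable {n : ℕ} {F R : SimpleGraph (Fin n)} {p : ℝ}

/-- one step -/
theorem step_one (h3 : S_deg_ge) (hFR : Disjoint F R) {v : Fin n} {s : ℕ} {ι κ : ℝ}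
    (h1 : ∀ k, pb (dgr R v) k ≤ ι * tb (dgr R v) (k + 1) + κ) (hι : 0 ≤ ι) (hκ : 0 ≤ κ) :
    pr (fun χ => s - 1 ≤ dgr (rg F R χ) v) ≤
      (1 + ι) * pr (fun χ => s ≤ dgr (rg F R χ) v) + κ := by
  rw [h3 n F R hFR, h3 n F R hFR]
  have h0 := tb_nonneg (dgr R v) (s - dgr F v)
  rcases le_or_gt s (dgr F v) with h | h
  · have e1 : s - dgr F v = 0 := by omega
    have e2 : s - 1 - dgr F v = 0 := by omega
    rw [e1] at h0 ⊢
    rw [e2]
    nlinarith
  · have e1 : s - dgr F v = (s - 1 - dgr F v) + 1 := by omega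
    rw [e1, tb_succ (dgr R v) (s - 1 - dgr F v)]
    have := h1 (s - 1 - dgr F v)
    linarith

/-- many steps -/
theorem step_many (h3 : S_deg_ge) (hFR : Disjoint F R) {v : Fin n} {s t w : ℕ} {A κ : ℝ}
    (h1 : ∀ k, tb (dgr R v) k ≤ A * tb (dgr R v) (k + w) + κ) (hA : 0 ≤ A) (ht : t ≤ s + w) :
    pr (fun χ => s ≤ dgr (rg F R χ) v) ≤ A * pr (fun χ => t ≤ dgr (rg F R χ) v) + κ := by
  rw [h3 n F R hFR, h3 n F R hFR]
  refine (h1 (s - dgr F v)).trans ?_
  have : tb (dgr R v) (s - dgr F v + w) ≤ tb (dgr R v) (t - dgr F v) := tb_anti _ (by omega)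
  have := mul_le_mul_of_nonneg_left this hA
  linarith

theorem level_of (h1 : S_tb_one) (h2 : S_tb_shift) (h3 : S_deg_ge) (h4 : S_pair) : S_level := by
  classical
  intro p hp
  obtain ⟨n1, h1⟩ := h1 p hp
  obtain ⟨ε, hε, n2, h2⟩ := h2 p hp
  refine ⟨ε, hε, fun δ hδ => ?_⟩
  have e1 : ∀ᶠ n : ℕ in Filter.atTop, (n : ℝ) ^ (-(1 / 100) : ℝ) < δ / 2 :=
    (tendsto_npow (by norm_num)).eventually_lt_const (by positivity)
  have e2 : ∀ᶠ n : ℕ in Filter.atTop, (n : ℝ) ^ (-(2 / 5) : ℝ) < min (δ / 16) (1 / 100) :=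
    (tendsto_npow (by norm_num)).eventually_lt_const (by positivity)
  have e3 : ∀ᶠ n : ℕ in Filter.atTop, (n : ℝ) ^ (-(1 / 100) : ℝ) < 1 / 2 :=
    (tendsto_npow (by norm_num)).eventually_lt_const (by positivity)
  obtain ⟨n3, hn3⟩ := Filter.eventually_atTop.1 (e1.and (e2.and e3))
  refine ⟨max (max n1 n2) (max n3 2), fun n hn F R hC => ?_⟩
  have hn1 : n1 ≤ n := le_trans (le_trans (le_max_left _ _) (le_max_left _ _)) hn
  have hn2 : n2 ≤ n := le_trans (le_trans (le_max_right _ _) (le_max_left _ _)) hn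
  have hn3' : n3 ≤ n := le_trans (le_trans (le_max_left _ _) (le_max_right _ _)) hn
  have hn4 : 2 ≤ n := le_trans (le_trans (le_max_right _ _) (le_max_right _ _)) hn
  obtain ⟨g1, g2, g3⟩ := hn3 n hn3'
  have hn0 : (0 : ℝ) < n := by exact_mod_cast (by omega : 0 < n)
  have hn1' : (1 : ℝ) ≤ n := by exact_mod_cast (by omega : 1 ≤ n)
  set S : Finset (Fin n) := univ.filter (fun v => p * n ≤ dgr R v) with hS
  set f : ℕ → ℝ := fun s => ∑ v ∈ S, pr (fun χ => s ≤ dgr (rg F R χ) v) with hf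
  have hfanti : ∀ {s t : ℕ}, s ≤ t → f t ≤ f s := fun {s t} hst =>
    Finset.sum_le_sum fun v _ => pr_mono fun χ hχ => hst.trans hχ
  have hf0 : ∀ s, 0 ≤ f s := fun s => Finset.sum_nonneg fun v _ => pr_nonneg _
  set θ : ℝ := (n : ℝ) ^ (1 / 100 : ℝ) with hθ
  have hθ1 : 1 ≤ θ := Real.one_le_rpow hn1' (by norm_num)
  have hθpos : 0 < θ := by linarith
  have hcardS : (S.card : ℝ) ≤ n := by
    have : S.card ≤ n := by
      calc S.card ≤ (univ : Finset (Fin n)).card := Finset.card_le_univ _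
        _ = n := by simp
    exact_mod_cast this
  have hex : ∃ t, f t < θ := by
    refine ⟨n + 1, ?_⟩
    have : f (n + 1) = 0 := by
      refine Finset.sum_eq_zero fun v _ => pr_false fun χ hχ => ?_
      have := dgr_le (rg F R χ) v
      omega
    rw [this]
    exact hθpos
  have h7 : (n : ℝ) * (n : ℝ) ^ (-7 : ℝ) ≤ (n : ℝ) ^ (-(2 / 5) : ℝ) := by
    have : (n : ℝ) * (n : ℝ) ^ (-7 : ℝ) = (n : ℝ) ^ (-6 : ℝ) := by
      nth_rewrite 1 [← Real.rpow_one (n : ℝ)]
      rw [← Real.rpow_add hn0]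
      norm_num
    rw [this]
    exact Real.rpow_le_rpow_of_exponent_le hn1' (by norm_num)
  -- upper bound below the level
  have hup : ∀ t : ℕ, f t < θ → ∀ s : ℕ, (t : ℝ) ≤ s + ε * Lm n + 2 →
      f s ≤ (n : ℝ) ^ (3 / 100 : ℝ) := by
    intro t ht s hst
    have hA : (1 : ℝ) ≤ (n : ℝ) ^ (1 / 100 : ℝ) := hθ1
    have h5 : f s ≤ θ * f t + n * (n : ℝ) ^ (-7 : ℝ) := by
      have h6 : ∀ v ∈ S, pr (fun χ => s ≤ dgr (rg F R χ) v) ≤
          θ * pr (fun χ => t ≤ dgr (rg F R χ) v) + (n : ℝ) ^ (-7 : ℝ) := by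
        intro v hv
        rw [hS, Finset.mem_filter] at hv
        refine step_many h3 hC.1 (w := t - s) (fun k => ?_) hθpos.le (by omega)
        refine h2 n hn2 (dgr R v) k (t - s) hv.2 (dgr_le R v) ?_
        rcases le_or_gt s t with h | h
        · rw [Nat.cast_sub h]
          linarith
        · rw [Nat.sub_eq_zero_of_le h.le, Nat.cast_zero]
          have : 0 ≤ Lm n := Real.sqrt_nonneg _
          positivity
      calc f s ≤ ∑ v ∈ S, (θ * pr (fun χ => t ≤ dgr (rg F R χ) v) + (n : ℝ) ^ (-7 : ℝ)) :=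
            Finset.sum_le_sum h6
        _ = θ * f t + S.card * (n : ℝ) ^ (-7 : ℝ) := by
            rw [Finset.sum_add_distrib, ← Finset.mul_sum, Finset.sum_const, nsmul_eq_mul]
        _ ≤ _ := by
            have := mul_le_mul_of_nonneg_right hcardS (Real.rpow_nonneg hn0.le (-7 : ℝ))
            linarith
    have h6 : θ * f t ≤ θ * θ := mul_le_mul_of_nonneg_left ht.le hθpos.le
    have h8 : (n : ℝ) ^ (-(2 / 5) : ℝ) ≤ 1 := by
      refine g2.le.trans ((min_le_right _ _).trans (by norm_num))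
    have h9 : (n : ℝ) ^ (3 / 100 : ℝ) = θ * θ * θ := by
      rw [hθ, ← Real.rpow_add hn0, ← Real.rpow_add hn0]
      norm_num
    have h10 : (2 : ℝ) ≤ θ := by
      have : θ * (n : ℝ) ^ (-(1 / 100) : ℝ) = 1 := by
        rw [hθ, ← Real.rpow_add hn0]
        norm_num
      by_contra hcon
      push Not at hcon
      have h11 : 0 ≤ (n : ℝ) ^ (-(1 / 100) : ℝ) := Real.rpow_nonneg hn0.le _
      nlinarith
    rw [h9]
    nlinarith [mul_pos hθpos hθpos]
  classical
  set t1 := Nat.find hex with ht1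
  have ht1' : f t1 < θ := Nat.find_spec hex
  rcases Nat.eq_zero_or_pos t1 with h0 | h0
  · -- everything is below the level
    refine ⟨0, ?_, ?_⟩
    · rw [pr_false fun χ hχ => absurd (hχ ⟨0, by omega⟩) (by omega)]
      exact hδ.le
    · intro s _
      refine hup t1 ht1' s ?_
      rw [h0, Nat.cast_zero]
      have : 0 ≤ Lm n := Real.sqrt_nonneg _
      positivity
  · refine ⟨t1 - 1, ?_, ?_⟩
    · have hμ : θ ≤ f (t1 - 1) := not_lt.1 (Nat.find_min hex (by omega))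
      set μ := f (t1 - 1) with hμdef
      have hμ1 : 1 ≤ μ := hθ1.trans hμ
      haveI : Nonempty (Coins n) := ⟨fun _ => true⟩
      have hsm := second_moment (Ω := Coins n) S (fun v χ => t1 - 1 ≤ dgr (rg F R χ) v)
      set ι : ℝ := (n : ℝ) ^ (-(2 / 5) : ℝ) with hι
      have hι0 : 0 ≤ ι := Real.rpow_nonneg hn0.le _
      have hι1 : ι ≤ δ / 16 := g2.le.trans (min_le_left _ _)
      have hι2 : ι ≤ 1 / 100 := g2.le.trans (min_le_right _ _)
      -- the level just below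
      have h5 : f (t1 - 1 - 1) ≤ (1 + 2 * ι) * μ := by
        have h6 : ∀ v ∈ S, pr (fun χ => t1 - 1 - 1 ≤ dgr (rg F R χ) v) ≤
            (1 + ι) * pr (fun χ => t1 - 1 ≤ dgr (rg F R χ) v) + (n : ℝ) ^ (-7 : ℝ) := by
          intro v hv
          rw [hS, Finset.mem_filter] at hv
          exact step_one h3 hC.1 (fun k => h1 n hn1 (dgr R v) k hv.2 (dgr_le R v)) hι0
            (Real.rpow_nonneg hn0.le _)
        have h8 : f (t1 - 1 - 1) ≤ (1 + ι) * μ + n * (n : ℝ) ^ (-7 : ℝ) := by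
          calc f (t1 - 1 - 1) ≤ ∑ v ∈ S, ((1 + ι) * pr (fun χ => t1 - 1 ≤ dgr (rg F R χ) v) +
                (n : ℝ) ^ (-7 : ℝ)) := Finset.sum_le_sum h6
            _ = (1 + ι) * μ + S.card * (n : ℝ) ^ (-7 : ℝ) := by
                rw [Finset.sum_add_distrib, ← Finset.mul_sum, Finset.sum_const, nsmul_eq_mul]
            _ ≤ _ := by
                have := mul_le_mul_of_nonneg_right hcardS (Real.rpow_nonneg hn0.le (-7 : ℝ))
                linarith
        nlinarith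
      have h6 : ∑ u ∈ S, ∑ v ∈ S, pr (fun χ => t1 - 1 ≤ dgr (rg F R χ) u ∧
          t1 - 1 ≤ dgr (rg F R χ) v) ≤ μ + f (t1 - 1 - 1) ^ 2 := by
        have h8 : ∀ u ∈ S, ∑ v ∈ S, pr (fun χ => t1 - 1 ≤ dgr (rg F R χ) u ∧
            t1 - 1 ≤ dgr (rg F R χ) v) ≤ pr (fun χ => t1 - 1 ≤ dgr (rg F R χ) u) +
            ∑ v ∈ S, pr (fun χ => t1 - 1 - 1 ≤ dgr (rg F R χ) u) *
              pr (fun χ => t1 - 1 - 1 ≤ dgr (rg F R χ) v) := by
          intro u hu
          rw [← Finset.sum_erase_add _ _ hu, add_comm]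
          refine add_le_add (pr_mono fun χ hχ => hχ.1) ?_
          refine le_trans (Finset.sum_le_sum (g := fun v =>
            pr (fun χ => t1 - 1 - 1 ≤ dgr (rg F R χ) u) *
              pr (fun χ => t1 - 1 - 1 ≤ dgr (rg F R χ) v)) fun v hv => ?_) ?_
          · exact h4 n F R hC.1 u v _ _ (Finset.ne_of_mem_erase hv).symm
          · exact Finset.sum_le_sum_of_subset_of_nonneg (Finset.erase_subset _ _)
              fun v _ _ => mul_nonneg (pr_nonneg _) (pr_nonneg _)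
        refine (Finset.sum_le_sum h8).trans ?_
        rw [Finset.sum_add_distrib]
        refine le_of_eq ?_
        congr 1
        rw [sq, hf, Finset.sum_mul_sum]
      have h8 : pr (fun χ => ∀ v ∈ S, ¬ (t1 - 1 ≤ dgr (rg F R χ) v)) * μ ^ 2 ≤
          μ + f (t1 - 1 - 1) ^ 2 - μ ^ 2 := by
        refine hsm.trans ?_
        linarith
      have h9 : f (t1 - 1 - 1) ^ 2 ≤ (1 + 8 * ι) * μ ^ 2 := by
        have h10 : f (t1 - 1 - 1) ^ 2 ≤ ((1 + 2 * ι) * μ) ^ 2 :=
          pow_le_pow_left₀ (hf0 _) h5 2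
        have h11 : (1 + 2 * ι) ^ 2 ≤ 1 + 8 * ι := by nlinarith
        calc f (t1 - 1 - 1) ^ 2 ≤ ((1 + 2 * ι) * μ) ^ 2 := h10
          _ = (1 + 2 * ι) ^ 2 * μ ^ 2 := by ring
          _ ≤ _ := mul_le_mul_of_nonneg_right h11 (sq_nonneg _)
      have h10 : pr (fun χ => ∀ v ∈ S, ¬ (t1 - 1 ≤ dgr (rg F R χ) v)) * μ ^ 2 ≤ δ * μ ^ 2 := by
        have h11 : μ ≤ δ / 2 * μ ^ 2 := by
          have h12 : 1 ≤ δ / 2 * μ := by
            have h13 : θ * (n : ℝ) ^ (-(1 / 100) : ℝ) = 1 := by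
              rw [hθ, ← Real.rpow_add hn0]
              norm_num
            have h14 : 0 ≤ (n : ℝ) ^ (-(1 / 100) : ℝ) := Real.rpow_nonneg hn0.le _
            nlinarith
          nlinarith
        nlinarith [sq_nonneg μ]
      have h11 : pr (fun χ => ∀ v ∈ S, ¬ (t1 - 1 ≤ dgr (rg F R χ) v)) ≤ δ :=
        le_of_mul_le_mul_right h10 (by positivity)
      refine le_trans (pr_mono fun χ hχ v _ => ?_) h11
      exact not_le.2 (hχ v)
    · intro s hs
      refine hup t1 ht1' s ?_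
      rw [Nat.cast_sub (by omega), Nat.cast_one] at hs
      linarith

end

end Pool.Agent.Y393.RS
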