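import Pool.Agent.Y393.RS.Main
import Pool.Agent.Y393.RS.Level
import Pool.Agent.Y891.RS.Tail
import Pool.Agent.Y891.RS.Ratio
import Pool.Agent.Y891.RS.Gap
import Pool.Agent.Y961.RS.Coin
import Pool.Agent.Y232.RG.Deg
import Pool.Agent.Y125.RS.Few
import Pool.Agent.Y333.RS.Mixid
import Pool.Agent.Y256.RS.Mixconc

/-!
# Random graphs with independent edges: assembly
-/

set_option autoImplicit false

namespace Pool.Agent.Y393.RS

open Finset Pool.Agent.H162R2.AG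

theorem t_tail : S_tb_tail := Y891.RS.tb_tail_of Y961.RS.bin_ge
theorem t_one : S_tb_one := Y891.RS.tb_one_of t_tail
theorem t_shift : S_tb_shift := Y891.RS.tb_shift_of t_tail
theorem t_deg_ge : S_deg_ge := Y232.RG.deg_ge_of Y961.RS.bin_ge
theorem t_deg_eq : S_deg_eq := Y232.RG.deg_eq_of Y961.RS.bin_eq
theorem t_pair : S_pair := Y232.RG.pair_of Y961.RS.indep
theorem t_pair_eq : S_pair_eq := Y232.RG.pair_eq_of Y961.RS.indep
theorem t_conc : S_conc := Y891.RS.conc_of Y232.RG.dgr_formula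
theorem t_level : S_level := level_of t_one t_shift t_deg_ge t_pair
theorem t_few : S_few := Y125.RS.few_of t_level t_conc
theorem t_gap : S_gap := Y891.RS.gap_of t_level t_conc t_deg_eq t_deg_ge t_pair_eq t_one

/-- a property of all the random graphs: three forms -/
def Typical (P : ∀ n : ℕ, SimpleGraph (Fin n) → Prop) : Prop :=
  (∀ p ε : ℝ, 0 < p → 0 < ε → ∃ N : ℕ, ∀ n : ℕ, N ≤ n → ∀ q : Sym2 (Fin n) → ℝ,
    CondQ p q → 1 - ε ≤ prq q (P n)) ∧
  (∀ p ε : ℝ, 0 < p → 0 < ε → ∃ N : ℕ, ∀ n : ℕ, N ≤ n → ∀ F B : SimpleGraph (Fin n), F ≤ B →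
    (∀ v, ((F.neighborSet v).ncard : ℝ) + p * n ≤ (B.neighborSet v).ncard ∨
      ∃ u, ((F.neighborSet v).ncard : ℝ) + (B.neighborSet v).ncard + p * n ≤
        (F.neighborSet u).ncard + (B.neighborSet u).ncard) →
    ({G : SimpleGraph (Fin n) | F ≤ G ∧ G ≤ B ∧ ¬ P n G}.ncard : ℝ) ≤
      ε * {G : SimpleGraph (Fin n) | F ≤ G ∧ G ≤ B}.ncard) ∧
  ∀ p ε : ℝ, 0 < p → 0 < ε → ∃ N : ℕ, ∀ n : ℕ, N ≤ n → ∀ B : SimpleGraph (Fin n),
    (∃ v, p * n ≤ (B.neighborSet v).ncard) →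
    ({G : SimpleGraph (Fin n) | G ≤ B ∧ ¬ P n G}.ncard : ℝ) ≤
      ε * {G : SimpleGraph (Fin n) | G ≤ B}.ncard

theorem typical_of (P : ∀ n : ℕ, SimpleGraph (Fin n) → Prop)
    (h : ∀ p δ : ℝ, 0 < p → 0 < δ → ∃ n₀ : ℕ, ∀ n : ℕ, n₀ ≤ n → ∀ F R : SimpleGraph (Fin n),
      Cond p F R → pr (fun χ => ¬ P n (rg F R χ)) ≤ δ) : Typical P := by
  have h1 := mix_of Y333.RS.mixid Y256.RS.mixconc P h
  have h2 := interval_of Y333.RS.mixid P h1
  refine ⟨h1, h2, ?_⟩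
  intro p ε hp hε
  obtain ⟨N, hN⟩ := h2 (p / 2) ε (by positivity) hε
  refine ⟨N, fun n hn B ⟨u, hu⟩ => ?_⟩
  have e0 : ∀ v : Fin n, ((⊥ : SimpleGraph (Fin n)).neighborSet v).ncard = 0 := by
    intro v
    have : (⊥ : SimpleGraph (Fin n)).neighborSet v = ∅ := by
      ext w
      simp
    rw [this, Set.ncard_empty]
  have h3 := hN n hn ⊥ B bot_le (fun v => by
    rw [e0, Nat.cast_zero, zero_add, zero_add]
    rcases le_or_gt (p / 2 * n) ((B.neighborSet v).ncard : ℝ) with h | h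
    · exact Or.inl h
    · refine Or.inr ⟨u, ?_⟩
      rw [e0, Nat.cast_zero, zero_add]
      linarith)
  simpa using h3

theorem typical_lecc : Typical (fun _ G => LECC G) := typical_of _ (lecc_coin t_few)

theorem typical_ltc : Typical (fun _ G => LTC G) := typical_of _ (ltc_coin t_few)

theorem typical_lists (r : ℕ) (hr : 1 ≤ r) : Typical (fun _ G => Lists r G) :=
  typical_of _ (lists_coin t_few r hr)

theorem typical_exact (r : ℕ) (hr : 1 ≤ r) : Typical (fun _ G => Exact r G) :=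
  typical_of _ (exact_coin t_few t_gap r hr)

end Pool.Agent.Y393.RS
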