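import Mathlib

/-!
# Random graphs with independent edges: definitions

`pr P` is the probability of `P` on a finite set with the uniform distribution. The random graph
`rg F R χ` consists of all edges of `F` and of those edges `uv` of `R` with `χ s(u, v) = true`,
where `χ` is a family of fair coins.
-/

set_option autoImplicit false

namespace Pool.Agent.Y393.RS

open Finset

/-- uniform probability on a finite set -/
noncomputable def pr {Ω : Type} [Fintype Ω] (P : Ω → Prop) : ℝ := by
  classical exact ((univ.filter P).card : ℝ) / (Fintype.card Ω : ℝ)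

/-- `√(n ln n)` -/
noncomputable def Lm (n : ℕ) : ℝ := Real.sqrt (n * Real.log n)

/-- point masses of the binomial distribution with parameters `d`, `1/2` -/
noncomputable def pb (d k : ℕ) : ℝ := (d.choose k : ℝ) / 2 ^ d

/-- upper tails of the binomial distribution with parameters `d`, `1/2` -/
noncomputable def tb (d k : ℕ) : ℝ := ∑ j ∈ Icc k d, pb d j

/-- neighbours in a graph -/
noncomputable def nbr {n : ℕ} (G : SimpleGraph (Fin n)) (v : Fin n) : Finset (Fin n) := by
  classical exact univ.filter (fun w => G.Adj v w)

/-- degree -/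
noncomputable def dgr {n : ℕ} (G : SimpleGraph (Fin n)) (v : Fin n) : ℕ := (nbr G v).card

/-- fair coins, one for every (unordered) pair -/
abbrev Coins (n : ℕ) : Type := Sym2 (Fin n) → Bool

/-- the random graph between `F` and `F ⊔ R` -/
def rg {n : ℕ} (F R : SimpleGraph (Fin n)) (χ : Coins n) : SimpleGraph (Fin n) where
  Adj u v := F.Adj u v ∨ (R.Adj u v ∧ χ s(u, v) = true)
  symm := ⟨fun u v h => by
    rcases h with h | h
    · exact Or.inl h.symm
    · refine Or.inr ⟨h.1.symm, ?_⟩
      rw [Sym2.eq_swap]
      exact h.2⟩
  loopless := ⟨fun u h => by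
    rcases h with h | h
    · exact F.loopless.irrefl u h
    · exact R.loopless.irrefl u h.1⟩

/-- twice the mean degree of `v` in the random graph -/
noncomputable def mean2 {n : ℕ} (F R : SimpleGraph (Fin n)) (v : Fin n) : ℝ :=
  2 * (dgr F v : ℝ) + (dgr R v : ℝ)

/-- every vertex whose mean degree is close to the largest one has at least `p n` random edges -/
def Cond {n : ℕ} (p : ℝ) (F R : SimpleGraph (Fin n)) : Prop :=
  Disjoint F R ∧ ∀ v, p * n ≤ dgr R v ∨ ∃ u, mean2 F R v + p * n ≤ mean2 F R u

end Pool.Agent.Y393.RS
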