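import Pool.Agent.Y393.RS.Pr

/-!
# From fair coins to edge probabilities
-/

set_option autoImplicit false

namespace Pool.Agent.Y393.RS

open Finset

theorem tw_nonneg {n : ℕ} {q : Sym2 (Fin n) → ℝ} (hq : ∀ e, 0 ≤ q e ∧ q e ≤ 1) (e : Sym2 (Fin n))
    (a : Fin 3) : 0 ≤ tw q e a := by
  obtain ⟨h1, h2⟩ := hq e
  unfold tw
  have h3 := min_le_left (q e) (1 - q e)
  have h4 := min_le_right (q e) (1 - q e)
  have h5 : 0 ≤ min (q e) (1 - q e) := le_min h1 (by linarith)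
  split_ifs <;> linarith

theorem tw_sum {n : ℕ} (q : Sym2 (Fin n) → ℝ) (e : Sym2 (Fin n)) :
    ∑ a : Fin 3, tw q e a = 1 := by
  rw [Fin.sum_univ_three]
  unfold tw
  rw [if_pos rfl, if_neg (by decide : (1 : Fin 3) ≠ 0), if_pos rfl,
    if_neg (by decide : (2 : Fin 3) ≠ 0), if_neg (by decide : (2 : Fin 3) ≠ 1)]
  ring

theorem tw_total {n : ℕ} (q : Sym2 (Fin n) → ℝ) :
    ∑ θ : Sym2 (Fin n) → Fin 3, ∏ e, tw q e (θ e) = 1 := by
  classical
  have h := Finset.prod_univ_sum (fun _ : Sym2 (Fin n) => (univ : Finset (Fin 3)))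
    (fun e a => tw q e a)
  rw [Finset.prod_congr rfl fun e _ => tw_sum q e, Finset.prod_const_one] at h
  rw [h, Fintype.piFinset_univ]

theorem prq_true {n : ℕ} (hid : S_mixid) {q : Sym2 (Fin n) → ℝ}
    (hq : ∀ e, 0 ≤ q e ∧ q e ≤ 1) : prq q (fun _ => True) = 1 := by
  classical
  rw [hid n q hq]
  rw [← tw_total q]
  refine Finset.sum_congr rfl fun θ _ => ?_
  have : pr (fun _ : Coins n => True) = 1 := by
    haveI : Nonempty (Coins n) := ⟨fun _ => true⟩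
    rw [pr_eq_sum]
    simp
  rw [this, mul_one]

theorem prq_not {n : ℕ} (hid : S_mixid) {q : Sym2 (Fin n) → ℝ}
    (hq : ∀ e, 0 ≤ q e ∧ q e ≤ 1) (P : SimpleGraph (Fin n) → Prop) :
    prq q P = 1 - prq q (fun G => ¬ P G) := by
  classical
  rw [eq_sub_iff_add_eq, ← prq_true hid hq]
  unfold prq
  rw [← Finset.sum_add_distrib]
  refine Finset.sum_congr rfl fun G _ => ?_
  by_cases h : P G <;> simp [h]

/-- a property which holds for the graphs given by fair coins holds for edge probabilities -/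
theorem mix_of (hid : S_mixid) (hconc : S_mixconc)
    (P : ∀ n : ℕ, SimpleGraph (Fin n) → Prop)
    (h : ∀ p δ : ℝ, 0 < p → 0 < δ → ∃ n₀ : ℕ, ∀ n : ℕ, n₀ ≤ n → ∀ F R : SimpleGraph (Fin n),
      Cond p F R → pr (fun χ => ¬ P n (rg F R χ)) ≤ δ) :
    ∀ p δ : ℝ, 0 < p → 0 < δ → ∃ n₀ : ℕ, ∀ n : ℕ, n₀ ≤ n → ∀ q : Sym2 (Fin n) → ℝ,
      CondQ p q → 1 - δ ≤ prq q (P n) := by
  classical
  intro p δ hp hδ
  obtain ⟨n₁, h1⟩ := h (p / 2) (δ / 2) (by positivity) (by positivity)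
  obtain ⟨n₂, h2⟩ := hconc p (δ / 2) hp (by positivity)
  refine ⟨max n₁ n₂, fun n hn q hq => ?_⟩
  have h3 := h1 n ((le_max_left _ _).trans hn)
  have h4 := h2 n ((le_max_right _ _).trans hn) q hq
  rw [prq_not hid hq.1]
  have h5 : prq q (fun G => ¬ P n G) ≤ δ := by
    rw [hid n q hq.1]
    have h6 : ∀ θ : Sym2 (Fin n) → Fin 3, (∏ e, tw q e (θ e)) *
        pr (fun χ => ¬ P n (rg (FG 0 θ) (FG 2 θ) χ)) ≤ δ / 2 * (∏ e, tw q e (θ e)) +
        (if Cond (p / 2) (FG 0 θ) (FG 2 θ) then 0 else ∏ e, tw q e (θ e)) := by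
      intro θ
      have hW : 0 ≤ ∏ e, tw q e (θ e) := Finset.prod_nonneg fun e _ => tw_nonneg hq.1 e _
      by_cases hC : Cond (p / 2) (FG 0 θ) (FG 2 θ)
      · rw [if_pos hC, add_zero, mul_comm]
        exact mul_le_mul_of_nonneg_right (h3 _ _ hC) hW
      · rw [if_neg hC]
        have := mul_le_mul_of_nonneg_left
          (pr_le_one (fun χ => ¬ P n (rg (FG 0 θ) (FG 2 θ) χ))) hW
        nlinarith
    refine (Finset.sum_le_sum fun θ _ => h6 θ).trans ?_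
    rw [Finset.sum_add_distrib, ← Finset.mul_sum, tw_total]
    linarith
  linarith

/-- edge probabilities of the uniform distribution on the graphs between `F` and `B` -/
noncomputable def hq {n : ℕ} (F B : SimpleGraph (Fin n)) (e : Sym2 (Fin n)) : ℝ := by
  classical exact if e ∈ F.edgeSet then 1 else if e ∈ B.edgeSet then 1 / 2 else 0

theorem hq_mem {n : ℕ} (F B : SimpleGraph (Fin n)) (e : Sym2 (Fin n)) :
    0 ≤ hq F B e ∧ hq F B e ≤ 1 := by
  unfold hq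
  split_ifs <;> norm_num

theorem wt_hq {n : ℕ} {F B : SimpleGraph (Fin n)} (hFB : F ≤ B) :
    ∃ c : ℝ, 0 < c ∧ ∀ G : SimpleGraph (Fin n), (F ≤ G ∧ G ≤ B → wt (hq F B) G = c) ∧
      (¬ (F ≤ G ∧ G ≤ B) → wt (hq F B) G = 0) := by
  classical
  refine ⟨∏ e : {e : Sym2 (Fin n) // ¬ e.IsDiag},
    if e.1 ∈ F.edgeSet then 1 else if e.1 ∈ B.edgeSet then 1 / 2 else 1, ?_, fun G => ⟨?_, ?_⟩⟩
  · refine Finset.prod_pos fun e _ => ?_
    split_ifs <;> norm_num
  · rintro ⟨h1, h2⟩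
    unfold wt
    refine Finset.prod_congr rfl fun e _ => ?_
    have k1 : e.1 ∈ F.edgeSet → e.1 ∈ G.edgeSet := fun h => SimpleGraph.edgeSet_mono h1 h
    have k2 : e.1 ∈ G.edgeSet → e.1 ∈ B.edgeSet := fun h => SimpleGraph.edgeSet_mono h2 h
    unfold hq
    by_cases hF : e.1 ∈ F.edgeSet
    · simp [hF, k1 hF]
    · by_cases hB : e.1 ∈ B.edgeSet
      · by_cases hG : e.1 ∈ G.edgeSet
        · simp [hF, hB, hG]
        · simp only [hF, hB, hG, if_false, if_true]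
          norm_num
      · have hG : e.1 ∉ G.edgeSet := fun h => hB (k2 h)
        simp [hF, hB, hG]
  · intro h
    unfold wt
    rw [Finset.prod_eq_zero_iff]
    rw [not_and_or] at h
    rcases h with h | h
    · obtain ⟨u, v, h1, h2⟩ : ∃ u v, F.Adj u v ∧ ¬ G.Adj u v := by
        by_contra hcon
        push Not at hcon
        exact h fun u v huv => hcon u v huv
      have hd : ¬ (s(u, v) : Sym2 (Fin n)).IsDiag := by
        rw [Sym2.mk_isDiag_iff]
        exact h1.ne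
      refine ⟨⟨s(u, v), hd⟩, Finset.mem_univ _, ?_⟩
      have e1 : (s(u, v) : Sym2 (Fin n)) ∈ F.edgeSet := h1
      have e2 : (s(u, v) : Sym2 (Fin n)) ∉ G.edgeSet := h2
      simp [hq, e1, e2]
    · obtain ⟨u, v, h1, h2⟩ : ∃ u v, G.Adj u v ∧ ¬ B.Adj u v := by
        by_contra hcon
        push Not at hcon
        exact h fun u v huv => hcon u v huv
      have hd : ¬ (s(u, v) : Sym2 (Fin n)).IsDiag := by
        rw [Sym2.mk_isDiag_iff]
        exact h1.ne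
      refine ⟨⟨s(u, v), hd⟩, Finset.mem_univ _, ?_⟩
      have e1 : (s(u, v) : Sym2 (Fin n)) ∉ B.edgeSet := h2
      have e2 : (s(u, v) : Sym2 (Fin n)) ∈ G.edgeSet := h1
      have e3 : (s(u, v) : Sym2 (Fin n)) ∉ F.edgeSet := fun h => e1 (SimpleGraph.edgeSet_mono hFB h)
      simp [hq, e1, e2, e3]

/-- degree as the number of neighbours -/
theorem ncard_dgr {n : ℕ} (G : SimpleGraph (Fin n)) (v : Fin n) :
    (G.neighborSet v).ncard = dgr G v := by
  classical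
  unfold dgr
  rw [← Set.ncard_coe_finset]
  congr 1
  ext w
  simp [nbr]

theorem ed_hq {n : ℕ} {F B : SimpleGraph (Fin n)} (hFB : F ≤ B) (v : Fin n) :
    ed (hq F B) v = ((dgr F v : ℝ) + dgr B v) / 2 := by
  classical
  have h1 : ∀ G : SimpleGraph (Fin n), (dgr G v : ℝ) =
      ∑ w ∈ univ.erase v, if G.Adj v w then (1 : ℝ) else 0 := by
    intro G
    rw [Finset.sum_boole, dgr, nbr]
    congr 2
    ext w
    simp only [Finset.mem_filter, Finset.mem_univ, true_and, Finset.mem_erase, and_true]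
    constructor
    · intro h
      exact ⟨h.ne', h⟩
    · exact fun h => h.2
  rw [h1 F, h1 B, ← Finset.sum_add_distrib, Finset.sum_div]
  unfold ed
  refine Finset.sum_congr rfl fun w _ => ?_
  unfold hq
  have e1 : (s(v, w) : Sym2 (Fin n)) ∈ F.edgeSet ↔ F.Adj v w := Iff.rfl
  have e2 : (s(v, w) : Sym2 (Fin n)) ∈ B.edgeSet ↔ B.Adj v w := Iff.rfl
  by_cases hF : F.Adj v w
  · have hB := hFB hF
    simp [e1, hF, hB]
  · by_cases hB : B.Adj v w <;> simp [e1, e2, hF, hB]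

theorem un_hq {n : ℕ} {F B : SimpleGraph (Fin n)} (hFB : F ≤ B) (v : Fin n) :
    un (hq F B) v = ((dgr B v : ℝ) - dgr F v) / 2 := by
  classical
  have h1 : ∀ G : SimpleGraph (Fin n), (dgr G v : ℝ) =
      ∑ w ∈ univ.erase v, if G.Adj v w then (1 : ℝ) else 0 := by
    intro G
    rw [Finset.sum_boole, dgr, nbr]
    congr 2
    ext w
    simp only [Finset.mem_filter, Finset.mem_univ, true_and, Finset.mem_erase, and_true]
    constructor
    · intro h
      exact ⟨h.ne', h⟩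
    · exact fun h => h.2
  rw [h1 F, h1 B, ← Finset.sum_sub_distrib, Finset.sum_div]
  unfold un
  refine Finset.sum_congr rfl fun w _ => ?_
  unfold hq
  have e1 : (s(v, w) : Sym2 (Fin n)) ∈ F.edgeSet ↔ F.Adj v w := Iff.rfl
  have e2 : (s(v, w) : Sym2 (Fin n)) ∈ B.edgeSet ↔ B.Adj v w := Iff.rfl
  by_cases hF : F.Adj v w
  · have hB := hFB hF
    simp [e1, hF, hB]
  · by_cases hB : B.Adj v w
    · simp only [e1, e2, hF, hB, if_false, if_true]
      norm_num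
    · simp [e1, e2, hF, hB]

/-- the graphs between `F` and `B` -/
theorem interval_of (hid : S_mixid) (P : ∀ n : ℕ, SimpleGraph (Fin n) → Prop)
    (h : ∀ p δ : ℝ, 0 < p → 0 < δ → ∃ n₀ : ℕ, ∀ n : ℕ, n₀ ≤ n → ∀ q : Sym2 (Fin n) → ℝ,
      CondQ p q → 1 - δ ≤ prq q (P n)) :
    ∀ p δ : ℝ, 0 < p → 0 < δ → ∃ n₀ : ℕ, ∀ n : ℕ, n₀ ≤ n → ∀ F B : SimpleGraph (Fin n), F ≤ B →
      (∀ v, ((F.neighborSet v).ncard : ℝ) + p * n ≤ (B.neighborSet v).ncard ∨
        ∃ u, ((F.neighborSet v).ncard : ℝ) + (B.neighborSet v).ncard + p * n ≤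
          (F.neighborSet u).ncard + (B.neighborSet u).ncard) →
      ({G : SimpleGraph (Fin n) | F ≤ G ∧ G ≤ B ∧ ¬ P n G}.ncard : ℝ) ≤
        δ * {G : SimpleGraph (Fin n) | F ≤ G ∧ G ≤ B}.ncard := by
  classical
  intro p δ hp hδ
  obtain ⟨n₀, h⟩ := h (p / 2) δ (by positivity) hδ
  refine ⟨n₀, fun n hn F B hFB hv => ?_⟩
  obtain ⟨c, hc, hw⟩ := wt_hq hFB
  have h1 := h n hn (hq F B) ⟨hq_mem F B, fun v => by
    rw [un_hq hFB, ed_hq hFB]
    rcases hv v with h | ⟨u, h⟩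
    · left
      rw [ncard_dgr, ncard_dgr] at h
      linarith
    · right
      refine ⟨u, ?_⟩
      rw [ed_hq hFB]
      rw [ncard_dgr, ncard_dgr, ncard_dgr, ncard_dgr] at h
      linarith⟩
  have key : ∀ Q : SimpleGraph (Fin n) → Prop, prq (hq F B) Q =
      c * ({G : SimpleGraph (Fin n) | F ≤ G ∧ G ≤ B ∧ Q G}.ncard : ℝ) := by
    intro Q
    have e1 : ({G : SimpleGraph (Fin n) | F ≤ G ∧ G ≤ B ∧ Q G}.ncard : ℝ) =
        ∑ G : SimpleGraph (Fin n), if F ≤ G ∧ G ≤ B ∧ Q G then (1 : ℝ) else 0 := by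
      rw [Finset.sum_boole, ← Set.ncard_coe_finset]
      congr 2
      ext G
      simp
    rw [e1, Finset.mul_sum]
    unfold prq
    refine Finset.sum_congr rfl fun G _ => ?_
    by_cases hQ : Q G
    · by_cases hG : F ≤ G ∧ G ≤ B
      · rw [if_pos hQ, (hw G).1 hG, if_pos ⟨hG.1, hG.2, hQ⟩, mul_one]
      · rw [if_pos hQ, (hw G).2 hG, if_neg (fun h => hG ⟨h.1, h.2.1⟩), mul_zero]
    · rw [if_neg hQ, if_neg (fun h => hQ h.2.2), mul_zero]
  have h2 := key (fun _ => True)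
  rw [prq_true hid (hq_mem F B)] at h2
  have h3 := key (fun G => ¬ P n G)
  have h4 := prq_not hid (hq_mem F B) (P n)
  have h5 : {G : SimpleGraph (Fin n) | F ≤ G ∧ G ≤ B ∧ True} =
      {G : SimpleGraph (Fin n) | F ≤ G ∧ G ≤ B} := by
    ext G
    simp
  rw [h5] at h2
  have h6 : c * ({G : SimpleGraph (Fin n) | F ≤ G ∧ G ≤ B ∧ ¬ P n G}.ncard : ℝ) ≤
      c * (δ * {G : SimpleGraph (Fin n) | F ≤ G ∧ G ≤ B}.ncard) := by
    rw [← h3]
    have : c * (δ * ({G : SimpleGraph (Fin n) | F ≤ G ∧ G ≤ B}.ncard : ℝ)) = δ := by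
      calc c * (δ * ({G : SimpleGraph (Fin n) | F ≤ G ∧ G ≤ B}.ncard : ℝ)) =
          δ * (c * ({G : SimpleGraph (Fin n) | F ≤ G ∧ G ≤ B}.ncard : ℝ)) := by ring
        _ = δ := by rw [← h2, mul_one]
    rw [this]
    linarith
  exact le_of_mul_le_mul_left h6 hc

end Pool.Agent.Y393.RS
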