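import Pool.Agent.H162R2.AG.FinP
import Pool.Agent.Y393.RS.Mix

/-!
# List edge colourings and (p,1)-total labellings of the random graphs
-/

set_option autoImplicit false

namespace Pool.Agent.Y393.RS

open Finset
open Pool.Agent.H162R2.Sparse (dg LP)
open Pool.Agent.H162R2.AG

theorem dg_eq_dgr {n : ℕ} (G : SimpleGraph (Fin n)) (v : Fin n) : dg G v = dgr G v := rfl

theorem Lam_eq_Lm (n : ℕ) : Lam n = Lm n := rfl

theorem growth {ε : ℝ} (hε : 0 < ε) : ∃ n₀ : ℕ, ∀ n : ℕ, n₀ ≤ n →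
    (n : ℝ) ^ (1 / 4 : ℝ) ≤ ε * Lm n := by
  have h1 : Filter.Tendsto (fun n : ℕ => (n : ℝ) ^ (1 / 4 : ℝ)) Filter.atTop Filter.atTop :=
    (tendsto_rpow_atTop (by norm_num)).comp tendsto_natCast_atTop_atTop
  obtain ⟨n₁, hn₁⟩ := Filter.eventually_atTop.1 (h1.eventually_ge_atTop (1 / ε))
  refine ⟨max n₁ 3, fun n hn => ?_⟩
  have h2 := hn₁ n ((le_max_left _ _).trans hn)
  have h3 : (3 : ℝ) ≤ n := by exact_mod_cast (le_max_right n₁ 3).trans hn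
  have hn0 : (0 : ℝ) < n := by linarith
  have h4 : (n : ℝ) ^ (1 / 2 : ℝ) ≤ Lm n := by
    unfold Lm
    rw [← Real.sqrt_eq_rpow]
    apply Real.sqrt_le_sqrt
    have h4 : 1 ≤ Real.log n := by
      rw [Real.le_log_iff_exp_le hn0]
      have := Real.exp_one_lt_d9
      linarith
    nlinarith
  have h5 : (n : ℝ) ^ (1 / 2 : ℝ) = (n : ℝ) ^ (1 / 4 : ℝ) * (n : ℝ) ^ (1 / 4 : ℝ) := by
    rw [← Real.rpow_add hn0]
    norm_num
  have h6 : 0 < (n : ℝ) ^ (1 / 4 : ℝ) := Real.rpow_pos_of_pos hn0 _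
  have h7 : 1 ≤ ε * (n : ℝ) ^ (1 / 4 : ℝ) := by
    rw [div_le_iff₀ hε] at h2
    linarith
  calc (n : ℝ) ^ (1 / 4 : ℝ) ≤ (ε * (n : ℝ) ^ (1 / 4 : ℝ)) * (n : ℝ) ^ (1 / 4 : ℝ) := by
        nlinarith
    _ = ε * (n : ℝ) ^ (1 / 2 : ℝ) := by rw [h5]; ring
    _ ≤ ε * Lm n := mul_le_mul_of_nonneg_left h4 hε.le

theorem cnt_few {n : ℕ} (G : SimpleGraph (Fin n)) (D : ℕ) (ε : ℝ) (v : Fin n) :
    cnt (fun w => G.Adj v w ∧ (D : ℝ) - ε * Lam n < dg G w) ≤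
      ((univ.filter (fun v => (D : ℝ) - ε * Lm n < dgr G v)).card : ℝ) := by
  classical
  unfold cnt
  refine Nat.cast_le.2 (Finset.card_le_card fun w hw => ?_)
  simp only [Finset.mem_filter, Finset.mem_univ, true_and] at hw ⊢
  exact hw.2

theorem lecc_coin (hfew : S_few) : ∀ p δ : ℝ, 0 < p → 0 < δ → ∃ n₀ : ℕ, ∀ n : ℕ, n₀ ≤ n →
    ∀ F R : SimpleGraph (Fin n), Cond p F R → pr (fun χ => ¬ LECC (rg F R χ)) ≤ δ := by
  intro p δ hp hδ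
  obtain ⟨ε, hε, hfew⟩ := hfew p hp
  obtain ⟨n₁, h1⟩ := hfew δ hδ
  obtain ⟨n₂, h2⟩ := tA ε hε
  obtain ⟨n₃, h3⟩ := growth (ε := ε / 8) (by positivity)
  refine ⟨max (max n₁ n₂) (max n₃ 1), fun n hn F R hC => ?_⟩
  have hn1 : n₁ ≤ n := le_trans (le_trans (le_max_left _ _) (le_max_left _ _)) hn
  have hn2 : n₂ ≤ n := le_trans (le_trans (le_max_right _ _) (le_max_left _ _)) hn
  have hn3 : n₃ ≤ n := le_trans (le_trans (le_max_left _ _) (le_max_right _ _)) hn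
  have hn4 : 1 ≤ n := le_trans (le_trans (le_max_right _ _) (le_max_right _ _)) hn
  refine le_trans (pr_mono (fun χ hχ => ?_)) (h1 n hn1 F R hC)
  intro hcon
  apply hχ
  obtain ⟨D, hD1, ⟨v₀, hv₀⟩, hD2, hD3⟩ := hcon
  refine lecc_of_LC n hn4 _ fun D' hD' L hL hLc => ?_
  refine h2 n hn2 _ D hD1 hD2 (fun v => ?_) L hL fun a b hab => ?_
  · exact (cnt_few _ D ε v).trans (hD3.trans (h3 n hn3))
  · have := hD' v₀
    rw [dg_eq_dgr, hv₀] at this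
    exact this.trans (hLc a b hab)

theorem lp_coin (hfew : S_few) (r : ℕ) (hr : 1 ≤ r) :
    ∀ p δ : ℝ, 0 < p → 0 < δ → ∃ n₀ : ℕ, ∀ n : ℕ, n₀ ≤ n →
    ∀ F R : SimpleGraph (Fin n), Cond p F R → pr (fun χ => ¬ ∀ D : ℕ,
      (∀ v, dg (rg F R χ) v ≤ D) → ∀ (L : Fin n → Fin n → Finset ℕ) (M : Fin n → Finset ℕ),
      (∀ a b, L a b = L b a) →
      (∀ a b, (rg F R χ).Adj a b → D + 2 * r ≤ (L a b).card + 1) →
      (∀ v, D + 2 * r ≤ (M v).card + 1) → LP r (rg F R χ) L M) ≤ δ := by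
  intro p δ hp hδ
  obtain ⟨ε, hε, hfew⟩ := hfew p hp
  obtain ⟨n₁, h1⟩ := hfew δ hδ
  obtain ⟨n₂, h2⟩ := tAP r hr ε hε
  have hr' : (0 : ℝ) < r := by exact_mod_cast hr
  obtain ⟨n₃, h3⟩ := growth (ε := ε / (8 * r)) (by positivity)
  refine ⟨max (max n₁ n₂) n₃, fun n hn F R hC => ?_⟩
  have hn1 : n₁ ≤ n := le_trans (le_trans (le_max_left _ _) (le_max_left _ _)) hn
  have hn2 : n₂ ≤ n := le_trans (le_trans (le_max_right _ _) (le_max_left _ _)) hn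
  have hn3 : n₃ ≤ n := le_trans (le_max_right _ _) hn
  refine le_trans (pr_mono (fun χ hχ => ?_)) (h1 n hn1 F R hC)
  intro hcon
  apply hχ
  obtain ⟨D, hD1, ⟨v₀, hv₀⟩, hD2, hD3⟩ := hcon
  intro D' hD' L M hL hLc hMc
  have hDD : D ≤ D' := by
    have := hD' v₀
    rw [dg_eq_dgr, hv₀] at this
    exact this
  refine h2 n hn2 _ D hD1 hD2 (fun v => ?_) L M hL (fun a b hab => ?_) fun v => ?_
  · exact (cnt_few _ D ε v).trans (hD3.trans (h3 n hn3))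
  · have := hLc a b hab
    omega
  · have := hMc v
    omega

theorem lists_coin (hfew : S_few) (r : ℕ) (hr : 1 ≤ r) :
    ∀ p δ : ℝ, 0 < p → 0 < δ → ∃ n₀ : ℕ, ∀ n : ℕ, n₀ ≤ n →
    ∀ F R : SimpleGraph (Fin n), Cond p F R → pr (fun χ => ¬ Lists r (rg F R χ)) ≤ δ := by
  intro p δ hp hδ
  obtain ⟨n₁, h1⟩ := lp_coin hfew r hr p δ hp hδ
  refine ⟨max n₁ 1, fun n hn F R hC => ?_⟩
  refine le_trans (pr_mono (fun χ hχ => ?_)) (h1 n ((le_max_left _ _).trans hn) F R hC)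
  intro hcon
  apply hχ
  intro _ M L hM hL
  have : Nonempty (Fin n) := ⟨⟨0, (le_max_right n₁ 1).trans hn⟩⟩
  obtain ⟨v, hv⟩ := Finite.exists_max (fun v : Fin n => dg (rg F R χ) v)
  have hmax := maxDegree_eq (rg F R χ) (dg (rg F R χ) v) hv v rfl
  rw [hmax] at hM hL
  apply sym2_of_LP r (rg F R χ) L M
  apply hcon (dg (rg F R χ) v) hv (fun a b => L s(a, b)) M
  · intro a b
    exact congrArg L Sym2.eq_swap
  · intro a b hab
    have := hL s(a, b) hab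
    omega
  · intro w
    have := hM w
    omega

theorem ltc_coin (hfew : S_few) : ∀ p δ : ℝ, 0 < p → 0 < δ → ∃ n₀ : ℕ, ∀ n : ℕ, n₀ ≤ n →
    ∀ F R : SimpleGraph (Fin n), Cond p F R → pr (fun χ => ¬ LTC (rg F R χ)) ≤ δ := by
  intro p δ hp hδ
  obtain ⟨n₁, h1⟩ := lp_coin hfew 1 le_rfl p δ hp hδ
  refine ⟨max n₁ 1, fun n hn F R hC => ?_⟩
  refine le_trans (pr_mono (fun χ hχ => ?_)) (h1 n ((le_max_left _ _).trans hn) F R hC)
  intro hcon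
  apply hχ
  exact ltc_of_LP n ((le_max_right n₁ 1).trans hn) _ hcon

theorem exact_coin (hfew : S_few) (hgap : S_gap) (r : ℕ) (hr : 1 ≤ r) :
    ∀ p δ : ℝ, 0 < p → 0 < δ → ∃ n₀ : ℕ, ∀ n : ℕ, n₀ ≤ n →
    ∀ F R : SimpleGraph (Fin n), Cond p F R → pr (fun χ => ¬ Exact r (rg F R χ)) ≤ δ := by
  intro p δ hp hδ
  obtain ⟨ε, hε, hfew⟩ := hfew p hp
  obtain ⟨n₁, h1⟩ := hfew (δ / 2) (by positivity)
  obtain ⟨n₂, h2⟩ := tEX r hr ε hε
  obtain ⟨n₄, h4⟩ := hgap p hp r (δ / 2) (by positivity)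
  have hr' : (0 : ℝ) < r := by exact_mod_cast hr
  obtain ⟨n₃, h3⟩ := growth (ε := ε / (8 * r)) (by positivity)
  refine ⟨max (max n₁ n₂) (max n₃ (max n₄ 1)), fun n hn F R hC => ?_⟩
  simp only [max_le_iff] at hn
  obtain ⟨⟨hn1, hn2⟩, hn3, hn4, hn5⟩ := hn
  refine le_trans (pr_mono (Q := fun χ => (¬ ∃ D : ℕ, (∀ v, dgr (rg F R χ) v ≤ D) ∧
    (∃ v, dgr (rg F R χ) v = D) ∧ (n : ℝ) ^ (2 / 3 : ℝ) ≤ D ∧
    ((univ.filter (fun v => (D : ℝ) - ε * Lm n < dgr (rg F R χ) v)).card : ℝ) ≤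
      (n : ℝ) ^ (1 / 4 : ℝ)) ∨
    ¬ ∃ v₀, ∀ v, v ≠ v₀ → dgr (rg F R χ) v + r ≤ dgr (rg F R χ) v₀) fun χ hχ => ?_)
    ((pr_or_le _ _).trans (by have := h1 n hn1 F R hC; have := h4 n hn4 F R hC; linarith))
  by_contra hcon
  rw [not_or, not_not, not_not] at hcon
  obtain ⟨⟨D, hD1, ⟨v₁, hv₁⟩, hD2, hD3⟩, v₀, hv₀⟩ := hcon
  have e1 : v₁ = v₀ := by
    by_contra hne
    have := hv₀ v₁ hne
    have := hD1 v₀
    omega
  subst e1
  have hDpos : 1 ≤ D := by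
    by_contra h
    have h0 : D = 0 := by omega
    rw [h0, Nat.cast_zero] at hD2
    have : 0 < (n : ℝ) ^ (2 / 3 : ℝ) :=
      Real.rpow_pos_of_pos (by exact_mod_cast (by omega : 0 < n)) _
    linarith
  have hLP : LP r (rg F R χ) (fun _ _ => range (D + r)) (fun _ => range (D + r)) := by
    refine h2 n hn2 _ D v₁ hv₁ (fun v hv => ?_) hD2 fun v => ?_
    · have := hv₀ v hv
      rw [hv₁] at this
      rw [dg_eq_dgr]
      omega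
    · exact (cnt_few _ D ε v).trans (hD3.trans (h3 n hn3))
  exact hχ (exact_of r hr (rg F R χ) D hDpos hD1 v₁ hv₁ hLP)

end Pool.Agent.Y393.RS
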