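import Pool.Agent.Y393.RS.Stmts

/-!
# Elementary facts on `pr` and `tb`
-/

set_option autoImplicit false

namespace Pool.Agent.Y393.RS

open Finset

theorem pr_eq_sum {Ω : Type} [Fintype Ω] (P : Ω → Prop) [DecidablePred P] :
    pr P = (∑ ω, if P ω then (1 : ℝ) else 0) / Fintype.card Ω := by
  classical
  unfold pr
  rw [Finset.sum_boole]
  congr!

theorem pr_nonneg {Ω : Type} [Fintype Ω] (P : Ω → Prop) : 0 ≤ pr P := by
  unfold pr
  positivity

theorem pr_mono {Ω : Type} [Fintype Ω] {P Q : Ω → Prop} (h : ∀ ω, P ω → Q ω) : pr P ≤ pr Q := by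
  classical
  unfold pr
  refine div_le_div_of_nonneg_right ?_ (by positivity)
  exact_mod_cast Finset.card_le_card (fun ω hω => by
    simp only [Finset.mem_filter, Finset.mem_univ, true_and] at hω ⊢
    exact h ω hω)

theorem pr_congr {Ω : Type} [Fintype Ω] {P Q : Ω → Prop} (h : ∀ ω, P ω ↔ Q ω) : pr P = pr Q :=
  le_antisymm (pr_mono fun ω => (h ω).1) (pr_mono fun ω => (h ω).2)

theorem pr_le_one {Ω : Type} [Fintype Ω] (P : Ω → Prop) : pr P ≤ 1 := by
  classical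
  unfold pr
  rcases Nat.eq_zero_or_pos (Fintype.card Ω) with h | h
  · rw [h]
    norm_num
  · rw [div_le_one (by exact_mod_cast h)]
    exact_mod_cast Finset.card_le_univ _

theorem pr_or_le {Ω : Type} [Fintype Ω] (P Q : Ω → Prop) :
    pr (fun ω => P ω ∨ Q ω) ≤ pr P + pr Q := by
  classical
  rw [pr_eq_sum, pr_eq_sum, pr_eq_sum, ← add_div, ← Finset.sum_add_distrib]
  refine div_le_div_of_nonneg_right ?_ (by positivity)
  apply Finset.sum_le_sum
  intro ω _
  by_cases h1 : P ω <;> by_cases h2 : Q ω <;> simp [h1, h2]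

theorem pr_false {Ω : Type} [Fintype Ω] {P : Ω → Prop} (h : ∀ ω, ¬ P ω) : pr P = 0 := by
  classical
  unfold pr
  rw [Finset.filter_false_of_mem (fun ω _ => h ω)]
  simp

/-- Markov -/
theorem markov {Ω J : Type} [Fintype Ω] (S : Finset J) (A : J → Ω → Prop)
    (B : Ω → Finset J) (hB : ∀ ω, B ω ⊆ S) (hBA : ∀ ω, ∀ v ∈ B ω, A v ω) (x : ℝ) (hx : 0 < x) :
    pr (fun ω => x < ((B ω).card : ℝ)) ≤ (∑ v ∈ S, pr (A v)) / x := by
  classical
  rw [le_div_iff₀ hx, pr_eq_sum]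
  rw [show ∑ v ∈ S, pr (A v) = (∑ ω, ∑ v ∈ S, if A v ω then (1 : ℝ) else 0) / Fintype.card Ω by
    rw [Finset.sum_comm, Finset.sum_div]
    exact Finset.sum_congr rfl fun v _ => pr_eq_sum _]
  rw [div_mul_eq_mul_div, Finset.sum_mul]
  refine div_le_div_of_nonneg_right (Finset.sum_le_sum fun ω _ => ?_) (by positivity)
  split_ifs with h
  · rw [one_mul]
    refine h.le.trans ?_
    rw [Finset.sum_boole]
    exact_mod_cast Finset.card_le_card fun v hv => by
      rw [Finset.mem_filter]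
      exact ⟨hB ω hv, hBA ω v hv⟩
  · rw [zero_mul]
    exact Finset.sum_nonneg fun v _ => by split_ifs <;> norm_num

/-- second moment method -/
theorem second_moment {Ω J : Type} [Fintype Ω] [Nonempty Ω] (S : Finset J) (A : J → Ω → Prop) :
    pr (fun ω => ∀ v ∈ S, ¬ A v ω) * (∑ v ∈ S, pr (A v)) ^ 2 ≤
      ∑ u ∈ S, ∑ v ∈ S, pr (fun ω => A u ω ∧ A v ω) - (∑ v ∈ S, pr (A v)) ^ 2 := by
  classical
  set N : ℝ := (Fintype.card Ω : ℝ) with hN
  have hN0 : 0 < N := by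
    rw [hN]
    exact_mod_cast Fintype.card_pos
  set μ : ℝ := ∑ v ∈ S, pr (A v) with hμ
  set a : J → Ω → ℝ := fun v ω => if A v ω then (1 : ℝ) else 0 with ha
  set X : Ω → ℝ := fun ω => ∑ v ∈ S, a v ω with hX
  have h1 : ∑ ω, X ω = N * μ := by
    rw [hX, hμ, Finset.sum_comm, Finset.mul_sum]
    refine Finset.sum_congr rfl fun v _ => ?_
    rw [pr_eq_sum, mul_div_cancel₀ _ hN0.ne']
  have h2 : ∑ ω, X ω ^ 2 = N * ∑ u ∈ S, ∑ v ∈ S, pr (fun ω => A u ω ∧ A v ω) := by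
    rw [Finset.mul_sum]
    have : ∀ ω, X ω ^ 2 = ∑ u ∈ S, ∑ v ∈ S, a u ω * a v ω := by
      intro ω
      rw [hX, sq, Finset.sum_mul_sum]
    rw [Finset.sum_congr rfl fun ω _ => this ω, Finset.sum_comm]
    refine Finset.sum_congr rfl fun u _ => ?_
    rw [Finset.sum_comm, Finset.mul_sum]
    refine Finset.sum_congr rfl fun v _ => ?_
    rw [pr_eq_sum, mul_div_cancel₀ _ hN0.ne']
    refine Finset.sum_congr rfl fun ω _ => ?_
    rw [ha]
    by_cases h1 : A u ω <;> by_cases h2 : A v ω <;> simp [h1, h2]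
  have h3 : ∑ ω, (X ω - μ) ^ 2 =
      N * (∑ u ∈ S, ∑ v ∈ S, pr (fun ω => A u ω ∧ A v ω) - μ ^ 2) := by
    have : ∀ ω, (X ω - μ) ^ 2 = X ω ^ 2 - 2 * μ * X ω + μ ^ 2 := fun ω => by ring
    rw [Finset.sum_congr rfl fun ω _ => this ω, Finset.sum_add_distrib, Finset.sum_sub_distrib,
      ← Finset.mul_sum, h1, h2, Finset.sum_const, Finset.card_univ, nsmul_eq_mul, ← hN]
    ring
  have h4 : N * (pr (fun ω => ∀ v ∈ S, ¬ A v ω) * μ ^ 2) ≤ ∑ ω, (X ω - μ) ^ 2 := by
    rw [pr_eq_sum, ← mul_assoc, mul_div_cancel₀ _ hN0.ne', Finset.sum_mul]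
    refine Finset.sum_le_sum fun ω _ => ?_
    split_ifs with h
    · have : X ω = 0 := by
        rw [hX]
        exact Finset.sum_eq_zero fun v hv => by rw [ha]; simp [h v hv]
      rw [this]
      nlinarith
    · rw [zero_mul]
      positivity
  rw [h3] at h4
  exact le_of_mul_le_mul_left h4 hN0

theorem pb_nonneg (d k : ℕ) : 0 ≤ pb d k := by
  unfold pb
  positivity

theorem tb_nonneg (d k : ℕ) : 0 ≤ tb d k := Finset.sum_nonneg fun j _ => pb_nonneg d j

theorem tb_anti (d : ℕ) {k l : ℕ} (h : k ≤ l) : tb d l ≤ tb d k := by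
  unfold tb
  refine Finset.sum_le_sum_of_subset_of_nonneg (Finset.Icc_subset_Icc_left h)
    fun j _ _ => pb_nonneg d j

theorem pb_eq_zero {d k : ℕ} (h : d < k) : pb d k = 0 := by
  unfold pb
  rw [Nat.choose_eq_zero_of_lt h]
  simp

theorem tb_succ (d k : ℕ) : tb d k = pb d k + tb d (k + 1) := by
  unfold tb
  rcases le_or_gt k d with h | h
  · rw [← Finset.insert_Icc_add_one_left_eq_Icc h, Finset.sum_insert]
    simp
  · rw [Finset.Icc_eq_empty (by omega), Finset.Icc_eq_empty (by omega), pb_eq_zero h]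
    simp

theorem dgr_le {n : ℕ} (G : SimpleGraph (Fin n)) (v : Fin n) : dgr G v ≤ n := by
  unfold dgr
  calc (nbr G v).card ≤ (univ : Finset (Fin n)).card := Finset.card_le_univ _
    _ = n := by simp

end Pool.Agent.Y393.RS
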