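import Pool.Agent.Y393.RS.Defs

/-!
# Random graphs with independent edges: the statements of the jobs
-/

set_option autoImplicit false

namespace Pool.Agent.Y393.RS

open Finset

/-! ### binomial distribution -/

/-- tails of the binomial distribution -/
def S_tb_tail : Prop := ∃ n₀ : ℕ, ∀ n : ℕ, n₀ ≤ n → ∀ d k : ℕ, d ≤ n →
  (d : ℝ) / 2 + 2 * Lm n ≤ k → tb d k ≤ (n : ℝ) ^ (-7 : ℝ)

/-- a point mass is small in comparison with the tail behind it -/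
def S_tb_one : Prop := ∀ c : ℝ, 0 < c → ∃ n₀ : ℕ, ∀ n : ℕ, n₀ ≤ n → ∀ d k : ℕ,
  c * n ≤ d → d ≤ n →
  pb d k ≤ (n : ℝ) ^ (-(2 / 5) : ℝ) * tb d (k + 1) + (n : ℝ) ^ (-7 : ℝ)

/-- shift of a tail by `ε √(n log n)` -/
def S_tb_shift : Prop := ∀ c : ℝ, 0 < c → ∃ ε : ℝ, 0 < ε ∧ ∃ n₀ : ℕ, ∀ n : ℕ, n₀ ≤ n →
  ∀ d k w : ℕ, c * n ≤ d → d ≤ n → (w : ℝ) ≤ ε * Lm n + 2 →
  tb d k ≤ (n : ℝ) ^ (1 / 100 : ℝ) * tb d (k + w) + (n : ℝ) ^ (-7 : ℝ)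

/-! ### fair coins -/

/-- events which depend on disjoint sets of coins are independent -/
def S_indep : Prop := ∀ (ι : Type) [Fintype ι] [DecidableEq ι] (S T : Finset ι), Disjoint S T →
  ∀ P Q : (ι → Bool) → Prop, (∀ χ χ', (∀ i ∈ S, χ i = χ' i) → P χ → P χ') →
  (∀ χ χ', (∀ i ∈ T, χ i = χ' i) → Q χ → Q χ') →
  pr (fun χ => P χ ∧ Q χ) = pr P * pr Q

/-- the number of heads in a set of coins -/
def S_bin_eq : Prop := ∀ (ι : Type) [Fintype ι] [DecidableEq ι] (S : Finset ι) (k : ℕ),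
  pr (fun χ : ι → Bool => (S.filter (fun i => χ i = true)).card = k) = pb S.card k

/-- the number of heads in a set of coins -/
def S_bin_ge : Prop := ∀ (ι : Type) [Fintype ι] [DecidableEq ι] (S : Finset ι) (k : ℕ),
  pr (fun χ : ι → Bool => k ≤ (S.filter (fun i => χ i = true)).card) = tb S.card k

/-! ### degrees in the random graph -/

/-- the degree of `v` is the degree in `F` plus the number of heads in a set of `dgr R v` coins,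
which belong to pairs containing `v` -/
def S_dgr : Prop := ∀ (n : ℕ) (F R : SimpleGraph (Fin n)), Disjoint F R → ∀ v : Fin n,
  ∃ S : Finset (Sym2 (Fin n)), S.card = dgr R v ∧ (∀ e ∈ S, v ∈ e) ∧
    ∀ χ, dgr (rg F R χ) v = dgr F v + (S.filter (fun e => χ e = true)).card

def S_deg_ge : Prop := ∀ (n : ℕ) (F R : SimpleGraph (Fin n)), Disjoint F R → ∀ (v : Fin n) (t : ℕ),
  pr (fun χ => t ≤ dgr (rg F R χ) v) = tb (dgr R v) (t - dgr F v)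

def S_deg_eq : Prop := ∀ (n : ℕ) (F R : SimpleGraph (Fin n)), Disjoint F R → ∀ (v : Fin n) (t : ℕ),
  pr (fun χ => dgr (rg F R χ) v = t) ≤ pb (dgr R v) (t - dgr F v)

def S_pair : Prop := ∀ (n : ℕ) (F R : SimpleGraph (Fin n)), Disjoint F R →
  ∀ (u v : Fin n) (k l : ℕ), u ≠ v →
  pr (fun χ => k ≤ dgr (rg F R χ) u ∧ l ≤ dgr (rg F R χ) v) ≤
    pr (fun χ => k - 1 ≤ dgr (rg F R χ) u) * pr (fun χ => l - 1 ≤ dgr (rg F R χ) v)

def S_pair_eq : Prop := ∀ (n : ℕ) (F R : SimpleGraph (Fin n)), Disjoint F R →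
  ∀ (u v : Fin n) (k l : ℕ), u ≠ v →
  pr (fun χ => dgr (rg F R χ) u = k ∧ dgr (rg F R χ) v = l) ≤
    pr (fun χ => k - 1 ≤ dgr (rg F R χ) u ∧ dgr (rg F R χ) u ≤ k + 1) *
      pr (fun χ => l - 1 ≤ dgr (rg F R χ) v ∧ dgr (rg F R χ) v ≤ l + 1)

/-- concentration of all degrees -/
def S_conc : Prop := ∃ n₀ : ℕ, ∀ n : ℕ, n₀ ≤ n → ∀ F R : SimpleGraph (Fin n), Disjoint F R →
  pr (fun χ => ∃ v, 4 * Lm n ≤ |2 * (dgr (rg F R χ) v : ℝ) - mean2 F R v|) ≤ (n : ℝ) ^ (-5 : ℝ)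

/-- the level of the largest degrees -/
def S_level : Prop := ∀ p : ℝ, 0 < p → ∃ ε : ℝ, 0 < ε ∧ ∀ δ : ℝ, 0 < δ → ∃ n₀ : ℕ, ∀ n : ℕ,
  n₀ ≤ n → ∀ F R : SimpleGraph (Fin n), Cond p F R → ∃ t : ℕ,
    pr (fun χ => ∀ v, dgr (rg F R χ) v < t) ≤ δ ∧
    ∀ s : ℕ, (t : ℝ) ≤ s + ε * Lm n →
      ∑ v ∈ univ.filter (fun v => p * n ≤ dgr R v), pr (fun χ => s ≤ dgr (rg F R χ) v) ≤
        (n : ℝ) ^ (3 / 100 : ℝ)

/-- few vertices have a degree near the maximum degree -/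
def S_few : Prop := ∀ p : ℝ, 0 < p → ∃ ε : ℝ, 0 < ε ∧ ∀ δ : ℝ, 0 < δ → ∃ n₀ : ℕ, ∀ n : ℕ,
  n₀ ≤ n → ∀ F R : SimpleGraph (Fin n), Cond p F R →
  pr (fun χ => ¬ ∃ D : ℕ, (∀ v, dgr (rg F R χ) v ≤ D) ∧ (∃ v, dgr (rg F R χ) v = D) ∧
    (n : ℝ) ^ (2 / 3 : ℝ) ≤ D ∧
    ((univ.filter (fun v => (D : ℝ) - ε * Lm n < dgr (rg F R χ) v)).card : ℝ) ≤
      (n : ℝ) ^ (1 / 4 : ℝ)) ≤ δ

/-- one vertex has a degree which exceeds the other degrees by `g` -/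
def S_gap : Prop := ∀ p : ℝ, 0 < p → ∀ g : ℕ, ∀ δ : ℝ, 0 < δ → ∃ n₀ : ℕ, ∀ n : ℕ, n₀ ≤ n →
  ∀ F R : SimpleGraph (Fin n), Cond p F R →
  pr (fun χ => ¬ ∃ v₀, ∀ v, v ≠ v₀ → dgr (rg F R χ) v + g ≤ dgr (rg F R χ) v₀) ≤ δ

/-! ### edge probabilities -/

/-- probability of the graph `G` if every pair `e` is an edge with probability `q e`,
independently -/
noncomputable def wt {n : ℕ} (q : Sym2 (Fin n) → ℝ) (G : SimpleGraph (Fin n)) : ℝ := by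
  classical exact ∏ e : {e : Sym2 (Fin n) // ¬ e.IsDiag},
    if e.1 ∈ G.edgeSet then q e.1 else 1 - q e.1

/-- probability of the property `P` -/
noncomputable def prq {n : ℕ} (q : Sym2 (Fin n) → ℝ) (P : SimpleGraph (Fin n) → Prop) : ℝ := by
  classical exact ∑ G : SimpleGraph (Fin n), if P G then wt q G else 0

/-- expected degree -/
noncomputable def ed {n : ℕ} (q : Sym2 (Fin n) → ℝ) (v : Fin n) : ℝ :=
  ∑ w ∈ univ.erase v, q s(v, w)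

/-- uncertainty at a vertex -/
noncomputable def un {n : ℕ} (q : Sym2 (Fin n) → ℝ) (v : Fin n) : ℝ :=
  ∑ w ∈ univ.erase v, min (q s(v, w)) (1 - q s(v, w))

def CondQ {n : ℕ} (p : ℝ) (q : Sym2 (Fin n) → ℝ) : Prop :=
  (∀ e, 0 ≤ q e ∧ q e ≤ 1) ∧ ∀ v, p * n ≤ un q v ∨ ∃ u, ed q v + p * n ≤ ed q u

/-- the weights: `0` = surely an edge, `1` = surely not an edge, `2` = fair coin -/
noncomputable def tw {n : ℕ} (q : Sym2 (Fin n) → ℝ) (e : Sym2 (Fin n)) (a : Fin 3) : ℝ :=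
  if a = 0 then q e - min (q e) (1 - q e)
  else if a = 1 then 1 - q e - min (q e) (1 - q e) else 2 * min (q e) (1 - q e)

/-- the graph of the pairs with `θ e = a` -/
def FG {n : ℕ} (a : Fin 3) (θ : Sym2 (Fin n) → Fin 3) : SimpleGraph (Fin n) where
  Adj u v := u ≠ v ∧ θ s(u, v) = a
  symm := ⟨fun u v h => ⟨h.1.symm, by rw [Sym2.eq_swap]; exact h.2⟩⟩
  loopless := ⟨fun u h => h.1 rfl⟩

/-- mixture formula -/
def S_mixid : Prop := ∀ (n : ℕ) (q : Sym2 (Fin n) → ℝ), (∀ e, 0 ≤ q e ∧ q e ≤ 1) →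
  ∀ P : SimpleGraph (Fin n) → Prop,
  prq q P = ∑ θ : Sym2 (Fin n) → Fin 3, (∏ e, tw q e (θ e)) *
    pr (fun χ => P (rg (FG 0 θ) (FG 2 θ) χ))

open Classical in
/-- concentration for the mixture -/
def S_mixconc : Prop := ∀ p δ : ℝ, 0 < p → 0 < δ → ∃ n₀ : ℕ, ∀ n : ℕ, n₀ ≤ n →
  ∀ q : Sym2 (Fin n) → ℝ, CondQ p q →
  ∑ θ : Sym2 (Fin n) → Fin 3,
    (if Cond (p / 2) (FG 0 θ) (FG 2 θ) then 0 else ∏ e, tw q e (θ e)) ≤ δ

end Pool.Agent.Y393.RS
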